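import Pool.Agent.W_d741k_h18.K

/-!
# MP_d741cf_al, F4 half: chains on `A / B` for a free abelian subgroup `B` of rank `N`
-/

namespace FK

variable {A : Type} [Group A] {ι : Type} (deg : ι → ℕ)

/-- A natural complex of chains on all `A`-sets. -/
structure Sys (A : Type) [Group A] {ι : Type} (deg : ι → ℕ) where
  /-- the differential -/
  d : ∀ (X : Type) [MulAction A X], Ch X ι →ₗ[ℤ] Ch X ι
  nat : ∀ (X Y : Type) [MulAction A X] [MulAction A Y] (f : X → Y),
    (∀ (a : A) (x : X), f (a • x) = a • f x) → ∀ c, d Y (push f c) = push f (d X c)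
  dd : ∀ (X : Type) [MulAction A X] (c : Ch X ι), d X (d X c) = 0
  low : ∀ (X : Type) [MulAction A X] (r : ℕ), ∀ c ∈ Rk deg X (r + 1), d X c ∈ Rk deg X r

/-- The complex of the regular `A`-set is a resolution of `ℤ`. -/
structure Sys.Res {A : Type} [Group A] {ι : Type} {deg : ι → ℕ} (S : Sys A deg) : Prop where
  ex : ∀ r, ∀ c ∈ Rk deg A (r + 1), S.d A c = 0 → ∃ b ∈ Rk deg A (r + 2), S.d A b = c
  ex0 : ∀ c ∈ Rk deg A 0, (c.sum fun _ a => a) = 0 → ∃ b ∈ Rk deg A 1, S.d A b = c
  aug : ∀ b ∈ Rk deg A 1, ((S.d A b).sum fun _ a => a) = 0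
  low0 : ∀ c ∈ Rk deg A 0, S.d A c = 0
  ne0 : ∃ i : ι, deg i = 0

theorem sum_push {X Y : Type} (f : X → Y) (c : Ch X ι) :
    ((push f c).sum fun _ a => a) = c.sum fun _ a => a := by
  unfold push
  rw [Finsupp.lmapDomain_apply]
  exact Finsupp.sum_mapDomain_index (by simp) (by simp)

section Sub

variable {N : ℕ} (ρ : Multiplicative (Fin N → ℤ) →* A)

/-- The subgroup generated by the first `j` basis vectors. -/
def Bs (j : ℕ) : Subgroup A where
  carrier := {x | ∃ n : Fin N → ℤ, (∀ i, j ≤ i.val → n i = 0) ∧ ρ (Multiplicative.ofAdd n) = x}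
  one_mem' := ⟨0, fun _ _ => rfl, by rw [ofAdd_zero, map_one]⟩
  mul_mem' := by
    rintro _ _ ⟨n, hn, rfl⟩ ⟨m, hm, rfl⟩
    refine ⟨n + m, fun i hi => ?_, by rw [ofAdd_add, map_mul]⟩
    rw [Pi.add_apply, hn i hi, hm i hi, add_zero]
  inv_mem' := by
    rintro _ ⟨n, hn, rfl⟩
    refine ⟨-n, fun i hi => ?_, by rw [ofAdd_neg, map_inv]⟩
    rw [Pi.neg_apply, hn i hi, neg_zero]

theorem mem_Bs {j : ℕ} {x : A} : x ∈ Bs ρ j ↔
    ∃ n : Fin N → ℤ, (∀ i, j ≤ i.val → n i = 0) ∧ ρ (Multiplicative.ofAdd n) = x := Iff.rfl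

theorem Bs_le_succ (j : ℕ) : Bs ρ j ≤ Bs ρ (j + 1) := by
  rintro _ ⟨n, hn, rfl⟩
  exact ⟨n, fun i hi => hn i (by omega), rfl⟩

theorem Bs_top : Bs ρ N = ρ.range := by
  ext x
  constructor
  · rintro ⟨n, _, rfl⟩
    exact ⟨_, rfl⟩
  · rintro ⟨n, rfl⟩
    exact ⟨n.toAdd, fun i hi => absurd i.isLt (by omega), rfl⟩

theorem Bs_zero : Bs ρ 0 = ⊥ := by
  rw [eq_bot_iff]
  rintro _ ⟨n, hn, rfl⟩
  have : n = 0 := funext fun i => hn i (Nat.zero_le _)
  rw [this, ofAdd_zero, map_one]
  exact one_mem _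

theorem comm_ρ (n m : Multiplicative (Fin N → ℤ)) : ρ n * ρ m = ρ m * ρ n := by
  rw [← map_mul, mul_comm, map_mul]

/-- Right multiplication by `ρ γ` on `A / B_j`. -/
def rm (j : ℕ) (γ : Multiplicative (Fin N → ℤ)) : A ⧸ Bs ρ j → A ⧸ Bs ρ j :=
  Quotient.map' (fun g => g * ρ γ) (by
    intro g g' h
    rw [QuotientGroup.leftRel_apply] at h ⊢
    obtain ⟨n, hn, h1⟩ := h
    refine ⟨n, hn, ?_⟩
    have h2 : g' = g * ρ (Multiplicative.ofAdd n) := by rw [h1]; group
    rw [h2, mul_assoc g, comm_ρ]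
    group)

theorem rm_mk (j : ℕ) (γ : Multiplicative (Fin N → ℤ)) (g : A) :
    rm ρ j γ (QuotientGroup.mk g) = QuotientGroup.mk (g * ρ γ) := rfl

theorem rm_smul (j : ℕ) (γ : Multiplicative (Fin N → ℤ)) (a : A) (x : A ⧸ Bs ρ j) :
    rm ρ j γ (a • x) = a • rm ρ j γ x := by
  induction x using QuotientGroup.induction_on with
  | H g =>
    show (QuotientGroup.mk (a * g * ρ γ) : A ⧸ Bs ρ j) = QuotientGroup.mk (a * (g * ρ γ))
    rw [mul_assoc]

/-- Right multiplication as an action of `ℤ ^ N`. -/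
def rmP (j : ℕ) : Multiplicative (Fin N → ℤ) →* Equiv.Perm (A ⧸ Bs ρ j) where
  toFun γ := ⟨rm ρ j γ, rm ρ j γ⁻¹, by
      intro x
      induction x using QuotientGroup.induction_on with
      | H g =>
        rw [rm_mk, rm_mk, map_inv, mul_inv_cancel_right], by
      intro x
      induction x using QuotientGroup.induction_on with
      | H g =>
        rw [rm_mk, rm_mk, map_inv, inv_mul_cancel_right]⟩
  map_one' := by
    ext x
    induction x using QuotientGroup.induction_on with
    | H g =>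
      show rm ρ j 1 (QuotientGroup.mk g) = QuotientGroup.mk g
      rw [rm_mk, map_one, mul_one]
  map_mul' a b := by
    ext x
    induction x using QuotientGroup.induction_on with
    | H g =>
      show rm ρ j (a * b) (QuotientGroup.mk g) = rm ρ j a (rm ρ j b (QuotientGroup.mk g))
      rw [rm_mk, rm_mk, rm_mk, mul_assoc, ← map_mul, mul_comm b a]

theorem rmP_apply (j : ℕ) (γ : Multiplicative (Fin N → ℤ)) (x : A ⧸ Bs ρ j) :
    rmP ρ j γ x = rm ρ j γ x := rfl

/-- The projection `A / B_j → A / B_(j+1)`. -/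
def pr (j : ℕ) : A ⧸ Bs ρ j → A ⧸ Bs ρ (j + 1) :=
  Quotient.map' id (by
    intro g g' h
    rw [QuotientGroup.leftRel_apply] at h ⊢
    exact Bs_le_succ ρ j h)

theorem pr_mk (j : ℕ) (g : A) :
    pr ρ j (QuotientGroup.mk g) = QuotientGroup.mk g := rfl

/-- The basis vector. -/
def ev (i : Fin N) : Multiplicative (Fin N → ℤ) := Multiplicative.ofAdd (Pi.single i 1)

theorem ev_zpow (i : Fin N) (n : ℤ) : (ev i) ^ n = Multiplicative.ofAdd (Pi.single i n) := by
  unfold ev
  rw [← ofAdd_zsmul]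
  congr 1
  funext k
  by_cases h : k = i
  · subst h
    simp
  · simp [h]

end Sub

open Finsupp in
/-- **The induction.** -/
theorem HH_quot (S : Sys A deg) (hS : S.Res) {N : ℕ} {ρ : Multiplicative (Fin N → ℤ) →* A}
    (hρ : Function.Injective ρ) : ∀ j : ℕ, j ≤ N →
    HH deg (A ⧸ Bs ρ j) (S.d (A ⧸ Bs ρ j)) j (Set.range (rm ρ j)) := by
  intro j
  induction j with
  | zero =>
    intro _
    let q : A → A ⧸ Bs ρ 0 := QuotientGroup.mk
    have hq : ∀ (a : A) (x : A), q (a • x) = a • q x := fun a x => rfl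
    have hqi : Function.Injective q := by
      intro g g' h
      have h1 := QuotientGroup.eq.1 h
      rw [Bs_zero, Subgroup.mem_bot] at h1
      exact (inv_mul_eq_one.1 h1)
    have hqs : Function.Surjective q := QuotientGroup.mk_surjective
    obtain ⟨σ, hσ⟩ := hqs.hasRightInverse
    have hσ2 : ∀ g, σ (q g) = g := fun g => hqi (hσ _)
    have hσs : ∀ (a : A) (x : A ⧸ Bs ρ 0), σ (a • x) = a • σ x := by
      intro a x
      apply hqi
      rw [hσ, hq, hσ]
    have hqσ : ∀ c : Ch (A ⧸ Bs ρ 0) ι, push q (push σ c) = c := by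
      intro c
      rw [push_comp, push_congr (f := q ∘ σ) (g := id) hσ, push_id]
    refine ⟨?_, ?_⟩
    · intro r hr c hc h0
      obtain ⟨r', rfl⟩ : ∃ r', r = r' + 1 := ⟨r - 1, by omega⟩
      obtain ⟨b, hb, h1⟩ := hS.ex r' (push σ c) (push_mem deg σ hc) (by
        rw [S.nat _ _ σ hσs, h0, map_zero])
      refine ⟨push q b, push_mem deg q hb, ?_⟩
      rw [S.nat _ _ q hq, h1, hqσ]
    · obtain ⟨i, hi⟩ := hS.ne0
      refine ⟨Finsupp.single (q 1, i) 1, single_mem deg hi 1, ?_, ?_, ?_⟩
      · have h1 : (Finsupp.single (q 1, i) (1 : ℤ) : Ch (A ⧸ Bs ρ 0) ι) =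
            push q (Finsupp.single ((1 : A), i) 1) := by rw [push_single]
        rw [h1, S.nat _ _ q hq, hS.low0 _ (single_mem deg hi 1), map_zero]
      · intro v hv h1
        have h2 := hS.aug (push σ v) (push_mem deg σ hv)
        rw [S.nat _ _ σ hσs, h1, sum_push, Finsupp.sum_single_index rfl] at h2
        exact one_ne_zero h2
      · rintro _ ⟨γ, rfl⟩
        obtain ⟨b, hb, h1⟩ := hS.ex0 (Finsupp.single (σ (rm ρ 0 γ (q 1)), i) (1 : ℤ) -
          Finsupp.single (σ (q 1), i) 1)
          (sub_mem (single_mem deg hi 1) (single_mem deg hi 1)) (by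
            rw [Finsupp.sum_sub_index (by intros; rfl), Finsupp.sum_single_index rfl,
              Finsupp.sum_single_index rfl, sub_self])
        refine ⟨push q b, push_mem deg q hb, ?_⟩
        rw [S.nat _ _ q hq, h1, map_sub, push_single, push_single, push_single, hσ, hσ]
  | succ j ih =>
    intro hj
    have ih := ih (by omega)
    let i : Fin N := ⟨j, by omega⟩
    have hpr : ∀ (a : A) (x : A ⧸ Bs ρ j), pr ρ j (a • x) = a • pr ρ j x := by
      intro a x
      induction x using QuotientGroup.induction_on with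
      | H g => rfl
    refine step deg (S.dd _) (S.low _) (π := pr ρ j) (S.nat _ _ _ hpr)
      (β := rmP ρ j (ev i)) ?_ ?_ ?_ ?_ ?_ ?_ ?_ ih
    · exact S.nat _ _ _ (rm_smul ρ j (ev i))
    · intro x
      induction x using QuotientGroup.induction_on with
      | H g =>
        rw [rmP_apply, rm_mk, pr_mk, pr_mk]
        rw [QuotientGroup.eq]
        refine ⟨-(Pi.single i 1), fun k hk => ?_, ?_⟩
        · have : k ≠ i := by
            intro h
            rw [h] at hk
            exact absurd hk (by show ¬ (j + 1 ≤ j); omega)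
          simp [this]
        · rw [ofAdd_neg, map_inv, mul_inv_rev, inv_mul_cancel_right]
          rfl
    · intro x x' h
      induction x using QuotientGroup.induction_on with
      | H g =>
        induction x' using QuotientGroup.induction_on with
        | H g' =>
          rw [pr_mk, pr_mk, QuotientGroup.eq] at h
          obtain ⟨n, hn, h1⟩ := h
          refine ⟨n i, ?_⟩
          rw [← map_zpow, rmP_apply, rm_mk, ev_zpow, eq_comm, QuotientGroup.eq]
          refine ⟨n - Pi.single i (n i), fun k hk => ?_, ?_⟩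
          · by_cases h2 : k = i
            · subst h2
              simp
            · have : j + 1 ≤ k.val := by
                have h3 : k.val ≠ j := fun h4 => h2 (Fin.ext h4)
                omega
              rw [Pi.sub_apply, hn k this, Pi.single_eq_of_ne h2, sub_zero]
          · have h2 : g' = g * ρ (Multiplicative.ofAdd n) := by rw [h1]; group
            have h3 := comm_ρ ρ (Multiplicative.ofAdd (Pi.single i (n i))) (Multiplicative.ofAdd n)
            rw [h2, ofAdd_sub, map_div, mul_inv_rev, div_eq_mul_inv, mul_assoc, inv_mul_cancel_left,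
              eq_inv_mul_iff_mul_eq, ← mul_assoc, h3, mul_inv_cancel_right]
    · intro y
      induction y using QuotientGroup.induction_on with
      | H g => exact ⟨QuotientGroup.mk g, rfl⟩
    · intro x n h
      induction x using QuotientGroup.induction_on with
      | H g =>
        rw [← map_zpow, rmP_apply, rm_mk, ev_zpow, eq_comm, QuotientGroup.eq] at h
        obtain ⟨m, hm, h1⟩ := h
        rw [inv_mul_cancel_left] at h1
        have h2 := Multiplicative.ofAdd.injective (hρ h1)
        have h3 := hm i le_rfl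
        rw [h2] at h3
        simpa using h3
    · rintro _ ⟨γ, rfl⟩
      refine ⟨rm ρ j γ, ⟨γ, rfl⟩, ?_, ?_, S.nat _ _ _ (rm_smul ρ j γ)⟩
      · intro x
        induction x using QuotientGroup.induction_on with
        | H g => rfl
      · intro x
        have h1 : rmP ρ j γ (rmP ρ j (ev i) x) = rmP ρ j (ev i) (rmP ρ j γ x) := by
          rw [← Equiv.Perm.mul_apply, ← Equiv.Perm.mul_apply, ← map_mul, ← map_mul, mul_comm]
        exact h1
    · exact ⟨ev i, rfl⟩

/-- **Main result of this file.** If `A` has a natural resolution, every free abelian subgroup of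
rank `N` carries a non-zero cycle of rank `N` on `A / B`, provided there are no cells of rank
`N + 1`. -/
theorem exists_cycle (S : Sys A deg) (hS : S.Res) {N : ℕ} {ρ : Multiplicative (Fin N → ℤ) →* A}
    (hρ : Function.Injective ρ) :
    ∃ z ∈ Rk deg (A ⧸ ρ.range) N, S.d (A ⧸ ρ.range) z = 0 ∧ z ≠ 0 := by
  have h := HH_quot deg S hS hρ N le_rfl
  have key : ∀ B : Subgroup A, B = Bs ρ N → ∃ z ∈ Rk deg (A ⧸ B) N,
      S.d (A ⧸ B) z = 0 ∧ z ≠ 0 := by
    rintro _ rfl
    obtain ⟨z, hz, h1, h2, _⟩ := h.cyc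
    refine ⟨z, hz, h1, fun h3 => h2 0 (zero_mem _) ?_⟩
    rw [h3, map_zero]
  exact key _ (Bs_top ρ).symm

end FK
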