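import Pool.Agent.W_d741r_h37.Lists
import Pool.Agent.W_d741k_h18.KG

/-!
# MP_d741cf_al, F4 half: the certificate and the tree step

`A4` acts on the vertices `g ⟨r⟩` of the tree of `PSL₂(ℤ) = ⟨t, r | t², r³⟩` by `s₀ ↦ t r²`,
`s₁ ↦ r² t`, `s₂, s₃ ↦ 1`. A vertex is a reduced word `t^b r^{e₁} t r^{e₂} t ⋯ r^{e_k} t`, encoded as
`(b, [e₁, …, e_k])` (`false` for the exponent `1`, `true` for the exponent `2`).
-/

namespace FK

open AG

/-- Vertices of the tree: reduced words. -/
abbrev RW : Type := Bool × List Bool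

/-- The action of `t`. -/
def tA (y : RW) : RW := (!y.1, y.2)

/-- The action of `r`. -/
def rA : RW → RW
  | (true, l) => (false, false :: l)
  | (false, []) => (false, [])
  | (false, false :: l) => (false, true :: l)
  | (false, true :: l) => (true, l)

theorem tA_tA (y : RW) : tA (tA y) = y := by
  unfold tA
  simp

theorem rA_rA_rA (y : RW) : rA (rA (rA y)) = y := by
  rcases y with ⟨_ | _, _ | ⟨_ | _, l⟩⟩ <;> rfl

/-- `t` as a permutation. -/
def tP : Equiv.Perm RW := ⟨tA, tA, tA_tA, tA_tA⟩

/-- `r` as a permutation. -/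
def rP : Equiv.Perm RW := ⟨rA, fun y => rA (rA y), rA_rA_rA, rA_rA_rA⟩

theorem tP_tP : tP * tP = 1 := Equiv.ext tA_tA

theorem rP_rP_rP : rP * rP * rP = 1 := Equiv.ext rA_rA_rA

/-- The images of the generators. -/
def gP : Fin 4 → Equiv.Perm RW
  | 0 => tP * (rP * rP)
  | 1 => rP * rP * tP
  | 2 => 1
  | 3 => 1

/-- The action of `A4` on the vertices of the tree. -/
def Ψ : A4 →* Equiv.Perm RW := PresentedGroup.toGroup (f := gP) (by
  rintro r ⟨s, t, hst, rfl⟩
  rw [map_mul, map_inv, mul_inv_eq_one, map_list_prod, map_list_prod, List.map_map, List.map_map]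
  have e : (FreeGroup.lift gP) ∘ FreeGroup.of = gP := by
    funext x
    simp
  rw [e]
  have h1 : tP * (rP * rP) * (rP * rP * tP) * (tP * (rP * rP)) =
      rP * rP * tP * (tP * (rP * rP)) * (rP * rP * tP) := by
    apply Equiv.ext
    intro y
    show tA (rA (rA (rA (rA (tA (tA (rA (rA y)))))))) =
      rA (rA (tA (tA (rA (rA (rA (rA (tA y))))))))
    simp only [tA_tA, rA_rA_rA]
  fin_cases s <;> fin_cases t <;> first | exact absurd rfl hst | skip
  all_goals simp [C4, gP]
  · rw [← mul_assoc] at h1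
    simpa [mul_assoc] using h1
  · simpa [mul_assoc] using h1.symm)

theorem Ψ_of (s : Fin 4) : Ψ (PresentedGroup.of s) = gP s := PresentedGroup.toGroup.of _

/-- The action of the inverse of a letter. -/
def inA : Fin 4 → RW → RW
  | 0, y => rA (tA y)
  | 1, y => tA (rA y)
  | 2, y => y
  | 3, y => y

/-- The action of the inverse of a positive word. -/
def runI (w : List (Fin 4)) (y : RW) : RW := w.foldl (fun y a => inA a y) y

theorem Ψ_inv_of (s : Fin 4) (y : RW) : (Ψ (PresentedGroup.of s))⁻¹ y = inA s y := by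
  rw [Ψ_of, Equiv.Perm.inv_eq_iff_eq]
  fin_cases s
  · show y = tA (rA (rA (rA (tA y))))
    rw [rA_rA_rA, tA_tA]
  · show y = rA (rA (tA (tA (rA y))))
    rw [tA_tA, rA_rA_rA]
  · rfl
  · rfl

theorem Ψ_inv_word (w : List (Fin 4)) (y : RW) :
    (Ψ (toGrp C4 (AM.mk C4 w)))⁻¹ y = runI w y := by
  induction w generalizing y with
  | nil => simp [AM.mk_nil, runI]
  | cons s w ih =>
    rw [AM.mk_cons, map_mul, map_mul, mul_inv_rev, Equiv.Perm.mul_apply, toGrp_of, Ψ_inv_of, ih]
    rfl

/-- The length of a reduced word. -/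
def len (y : RW) : ℕ := 2 * y.2.length + cond y.1 1 0

theorem cert1 : ∀ w ∈ L15_0, w ≠ [] → ∀ l : List Bool,
    len (false, l) < len (runI w (false, l)) := by
  intro w hw hne l
  simp only [L15_0, List.mem_cons, List.not_mem_nil, or_false] at hw
  rcases hw with rfl | rfl | rfl | rfl | rfl | rfl | rfl | rfl | rfl | rfl | rfl | rfl | rfl | rfl |
    rfl | rfl | rfl | rfl | rfl | rfl | rfl | rfl | rfl | rfl
  · exact absurd rfl hne
  all_goals
    simp only [runI, List.foldl, inA, tA, rA, len, Bool.not_false, Bool.not_true, List.length_cons,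
      cond_true, cond_false]
    omega

theorem cert2 : ∀ w ∈ L15_0, w ≠ [0] → ∀ l : List Bool,
    len (true, l) < len (runI w (true, true :: l)) := by
  intro w hw hne l
  simp only [L15_0, List.mem_cons, List.not_mem_nil, or_false] at hw
  rcases hw with rfl | rfl | rfl | rfl | rfl | rfl | rfl | rfl | rfl | rfl | rfl | rfl | rfl | rfl |
    rfl | rfl | rfl | rfl | rfl | rfl | rfl | rfl | rfl | rfl
  · simp only [runI, List.foldl, len, List.length_cons, cond_true]
    omega
  · exact absurd rfl hne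
  all_goals
    simp only [runI, List.foldl, inA, tA, rA, len, Bool.not_false, Bool.not_true, List.length_cons,
      cond_true, cond_false]
    omega

theorem L15_0_nodup : L15_0.Nodup := by decide +kernel

/-- **The tree step.** A finitely supported function killed by the boundary coefficient at
`{1, 2, 3}` vanishes. -/
theorem tree_step {X : Type} [MulAction A4 X] {p : X → RW}
    (hp : ∀ (a : A4) (x : X), p (a • x) = Ψ a (p x)) (m : X →₀ ℤ)
    (h : ∀ y : X, (L15_0.map fun w => (-1 : ℤ) ^ w.length *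
      m ((toGrp C4 (AM.mk C4 w))⁻¹ • y)).sum = 0) : m = 0 := by
  by_contra hm
  obtain ⟨x0, hx0, hmax⟩ := Finset.exists_max_image m.support (fun x => len (p x))
    (Finsupp.support_nonempty_iff.2 hm)
  have hz : ∀ x, len (p x0) < len (p x) → m x = 0 := by
    intro x hx
    by_contra h1
    exact absurd (hmax x (Finsupp.mem_support_iff.2 h1)) (by omega)
  have hp' : ∀ (w : List (Fin 4)) (y : X),
      p ((toGrp C4 (AM.mk C4 w))⁻¹ • y) = runI w (p y) := by
    intro w y
    rw [hp, map_inv, Ψ_inv_word]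
  have key : ∀ (w0 : List (Fin 4)) (y : X), w0 ∈ L15_0 →
      (∀ w ∈ L15_0, w ≠ w0 → len (p x0) < len (runI w (p y))) →
      m ((toGrp C4 (AM.mk C4 w0))⁻¹ • y) = 0 := by
    intro w0 y hw0 hall
    have h1 : (L15_0.map fun w => (-1 : ℤ) ^ w.length *
        m ((toGrp C4 (AM.mk C4 w))⁻¹ • y)).sum =
        (-1 : ℤ) ^ w0.length * m ((toGrp C4 (AM.mk C4 w0))⁻¹ • y) := by
      rw [← List.sum_toFinset _ L15_0_nodup]
      apply Finset.sum_eq_single w0
      · intro w hw hne
        rw [hz _ (by rw [hp']; exact hall w (List.mem_toFinset.1 hw) hne), mul_zero]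
      · intro h2
        exact absurd (List.mem_toFinset.2 hw0) h2
    rw [h y] at h1
    have h2 : (-1 : ℤ) ^ w0.length ≠ 0 := pow_ne_zero _ (by norm_num)
    exact (mul_eq_zero.1 h1.symm).resolve_left h2
  rcases hx : p x0 with ⟨b, l⟩
  cases b with
  | false =>
    have h1 := key [] x0 (by unfold L15_0; exact List.mem_cons_self) (by
      intro w hw hne
      rw [hx]
      exact cert1 w hw hne l)
    rw [AM.mk_nil, map_one, inv_one, one_smul] at h1
    exact (Finsupp.mem_support_iff.1 hx0) h1
  | true =>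
    have h1 := key [0] (toGrp C4 (AM.mk C4 [0]) • x0) (by
      unfold L15_0; exact List.mem_cons_of_mem _ List.mem_cons_self) (by
      intro w hw hne
      have h2 : p (toGrp C4 (AM.mk C4 [0]) • x0) = (true, true :: l) := by
        rw [hp, AM.mk_cons, AM.mk_nil, mul_one, toGrp_of, Ψ_of, hx]
        rfl
      rw [h2, hx]
      exact cert2 w hw hne l)
    rw [inv_smul_smul] at h1
    exact (Finsupp.mem_support_iff.1 hx0) h1

end FK
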