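import Pool.Agent.W_d741k_h18.C

/-!
# MP_d741cf_al, F4 half: no `ℤ ^ 4` in the kernel of `A(F₄) → PSL₂(ℤ)`

`no_Z4` assumes the complex `S` of `A4`-chains (cells: subsets of `{0, 1, 2, 3}`), exact on the
regular set, with the explicit boundary coefficient at `{1, 2, 3}`.
-/

namespace FK

open AG

/-- The rank of a cell. -/
def cdeg (T : Finset (Fin 4)) : ℕ := T.card

/-- A chain of rank 4 is a function on `X`. -/
noncomputable def top4 {X : Type} (z : Ch X (Finset (Fin 4))) : X →₀ ℤ :=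
  Finsupp.comapDomain (fun x => (x, (Finset.univ : Finset (Fin 4)))) z
    (fun _ _ _ _ h => (Prod.ext_iff.1 h).1)

theorem top4_apply {X : Type} (z : Ch X (Finset (Fin 4))) (x : X) :
    top4 z x = z (x, Finset.univ) := rfl

theorem top4_ne {X : Type} {z : Ch X (Finset (Fin 4))} (hz : z ∈ Rk cdeg X 4) (h : z ≠ 0) :
    top4 z ≠ 0 := by
  intro h0
  apply h
  ext ⟨x, T⟩
  by_contra h1
  have h2 : cdeg T = 4 := (Finsupp.mem_supported ℤ z).1 hz (Finsupp.mem_support_iff.2 h1)
  have h3 : T = Finset.univ := Finset.card_eq_iff_eq_univ T |>.1 (by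
    rw [Fintype.card_fin]
    exact h2)
  rw [h3] at h1
  apply h1
  have h4 := DFunLike.congr_fun h0 x
  exact h4

/-- The boundary coefficient of a chain of rank 4 at the cell `{1, 2, 3}`. -/
def Coef (S : Sys A4 cdeg) : Prop :=
  ∀ (X : Type) [MulAction A4 X] (z : Ch X (Finset (Fin 4))), z ∈ Rk cdeg X 4 → ∀ y : X,
    S.d X z (y, Finset.univ.erase 0) = (L15_0.map fun w => (-1 : ℤ) ^ w.length *
      z ((toGrp C4 (AM.mk C4 w))⁻¹ • y, Finset.univ)).sum

/-- **No `ℤ ^ 4` fixes the base vertex.** -/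
theorem no_Z4 (S : Sys A4 cdeg) (hS : S.Res) (hc : Coef S)
    {ρ : Multiplicative (Fin 4 → ℤ) →* A4} (hρ : Function.Injective ρ)
    (hk : ∀ n, Ψ (ρ n) (false, []) = (false, [])) : False := by
  obtain ⟨z, hz, h0, hne⟩ := exists_cycle cdeg S hS hρ
  refine top4_ne hz hne ?_
  let p : A4 ⧸ ρ.range → RW := Quotient.lift (fun g : A4 => Ψ g (false, [])) (by
    intro g g' h
    have h1 := QuotientGroup.leftRel_apply.1 h
    obtain ⟨n, hn⟩ := h1
    have h2 : g' = g * ρ n := by rw [hn]; group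
    show Ψ g (false, []) = Ψ g' (false, [])
    rw [h2, map_mul, Equiv.Perm.mul_apply, hk])
  refine tree_step (p := p) ?_ (top4 z) ?_
  · intro a x
    induction x using QuotientGroup.induction_on with
    | H g =>
      show Ψ (a * g) (false, []) = Ψ a (Ψ g (false, []))
      rw [map_mul, Equiv.Perm.mul_apply]
  · intro y
    have h1 := hc _ z hz y
    rw [h0] at h1
    simpa [top4_apply] using h1.symm

end FK
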