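import Mathlib

/-!
# MP_d741cf_al, F4 half: the induction over a free abelian group

Chains on an `A`-set `X` are finitely supported functions `X × ι → ℤ`. If the chain complex of the
regular `A`-set is exact (a free resolution of `ℤ`), then for every free abelian subgroup
`B ≅ ℤ ^ N` of `A` there is a non-zero cycle of rank `N` on `A / B` (in fact not a boundary).
-/

namespace FK

open Finsupp

/-- Chains on `X` with cells `ι`. -/
abbrev Ch (X ι : Type) : Type := (X × ι) →₀ ℤ

section Push

variable {ι X Y Z : Type} (deg : ι → ℕ)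

/-- Chains of rank `r`. -/
def Rk (X : Type) (r : ℕ) : Submodule ℤ (Ch X ι) :=
  Finsupp.supported ℤ ℤ {p : X × ι | deg p.2 = r}

/-- Push forward of chains. -/
noncomputable def push (f : X → Y) : Ch X ι →ₗ[ℤ] Ch Y ι :=
  Finsupp.lmapDomain ℤ ℤ (Prod.map f id)

theorem push_single (f : X → Y) (p : X × ι) (a : ℤ) :
    push f (Finsupp.single p a) = Finsupp.single (f p.1, p.2) a := by
  unfold push
  rw [Finsupp.lmapDomain_apply, Finsupp.mapDomain_single]
  rfl

theorem push_comp (f : X → Y) (g : Y → Z) (c : Ch X ι) : push g (push f c) = push (g ∘ f) c := by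
  unfold push
  rw [Finsupp.lmapDomain_apply, Finsupp.lmapDomain_apply, Finsupp.lmapDomain_apply,
    ← Finsupp.mapDomain_comp]
  rfl

theorem push_id (c : Ch X ι) : push (id : X → X) c = c := by
  unfold push
  rw [Finsupp.lmapDomain_apply, Prod.map_id, Finsupp.mapDomain_id]

theorem push_congr {f g : X → Y} (h : ∀ x, f x = g x) (c : Ch X ι) : push f c = push g c := by
  rw [show f = g from funext h]

theorem push_mem (f : X → Y) {r : ℕ} {c : Ch X ι} (hc : c ∈ Rk deg X r) :
    push f c ∈ Rk deg Y r := by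
  classical
  unfold Rk at *
  rw [Finsupp.mem_supported] at *
  intro p hp
  have h2 : p ∈ Finset.image (Prod.map f (id : ι → ι)) c.support :=
    Finsupp.mapDomain_support hp
  obtain ⟨q, hq, rfl⟩ := Finset.mem_image.1 h2
  exact hc hq

theorem single_mem {r : ℕ} {p : X × ι} (h : deg p.2 = r) (a : ℤ) :
    Finsupp.single p a ∈ Rk deg X r := by
  unfold Rk
  exact Finsupp.single_mem_supported ℤ a h

/-- The kernel of the push forward to a quotient by a cyclic group. -/
theorem exists_sub {π : X → Y} {β : Equiv.Perm X}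
    (hπ : ∀ x x', π x = π x' → ∃ n : ℤ, x' = (β ^ n) x) (hs : Function.Surjective π)
    {r : ℕ} {c : Ch X ι} (hc : c ∈ Rk deg X r) (h0 : push π c = 0) :
    ∃ e ∈ Rk deg X r, push β e - e = c := by
  classical
  obtain ⟨σ, hσ⟩ := hs.hasRightInverse
  let D : Ch X ι →ₗ[ℤ] Ch X ι := push β - LinearMap.id
  have key : ∀ (x : X) (i : ι) (n : ℤ), deg i = r →
      Finsupp.single ((β ^ n) x, i) (1 : ℤ) - Finsupp.single (x, i) 1 ∈ (Rk deg X r).map D := by
    intro x i n hi
    induction n using Int.induction_on with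
    | zero => simp
    | succ n ih =>
      have h1 : D (Finsupp.single ((β ^ (n : ℤ)) x, i) (1 : ℤ)) ∈ (Rk deg X r).map D :=
        Submodule.mem_map_of_mem (single_mem deg (by exact hi) 1)
      have h2 : D (Finsupp.single ((β ^ (n : ℤ)) x, i) (1 : ℤ)) =
          Finsupp.single ((β ^ ((n : ℤ) + 1)) x, i) (1 : ℤ) -
            Finsupp.single ((β ^ (n : ℤ)) x, i) 1 := by
        show push β _ - _ = _
        rw [push_single, add_comm (n : ℤ) 1, zpow_add, zpow_one]
        rfl
      rw [h2] at h1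
      have := add_mem h1 ih
      rwa [sub_add_sub_cancel] at this
    | pred n ih =>
      have h1 : D (Finsupp.single ((β ^ (-(n : ℤ) - 1)) x, i) (1 : ℤ)) ∈ (Rk deg X r).map D :=
        Submodule.mem_map_of_mem (single_mem deg (by exact hi) 1)
      have h2 : D (Finsupp.single ((β ^ (-(n : ℤ) - 1)) x, i) (1 : ℤ)) =
          Finsupp.single ((β ^ (-(n : ℤ))) x, i) (1 : ℤ) -
            Finsupp.single ((β ^ (-(n : ℤ) - 1)) x, i) 1 := by
        show push β _ - _ = _
        rw [push_single]
        have h3 : β ((β ^ (-(n : ℤ) - 1)) x) = (β ^ (-(n : ℤ))) x := by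
          rw [show -(n : ℤ) = 1 + (-(n : ℤ) - 1) by ring, zpow_add, zpow_one]
          simp
        rw [h3]
        rfl
      rw [h2] at h1
      have := sub_mem ih h1
      rwa [sub_sub_sub_cancel_left, ← neg_sub, neg_sub] at this
  have h1 : c ∈ (Rk deg X r).map D := by
    have e1 : c = c.sum (fun p a => a • (Finsupp.single p (1 : ℤ) -
        Finsupp.single (σ (π p.1), p.2) 1)) + push σ (push π c) := by
      rw [push_comp]
      have h2 : push (σ ∘ π) c = c.sum fun p a => a • Finsupp.single (σ (π p.1), p.2) (1 : ℤ) := by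
        conv_lhs => rw [← Finsupp.sum_single c]
        rw [Finsupp.sum, map_sum]
        refine Finset.sum_congr rfl fun p _ => ?_
        rw [push_single]
        show _ = c p • Finsupp.single (σ (π p.1), p.2) (1 : ℤ)
        rw [Finsupp.smul_single, smul_eq_mul, mul_one]
        rfl
      rw [h2, ← Finsupp.sum_add]
      conv_lhs => rw [← Finsupp.sum_single c]
      refine Finset.sum_congr rfl fun p _ => ?_
      show Finsupp.single p (c p) = c p • (Finsupp.single p (1 : ℤ) -
        Finsupp.single (σ (π p.1), p.2) 1) + c p • Finsupp.single (σ (π p.1), p.2) (1 : ℤ)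
      rw [smul_sub, sub_add_cancel, Finsupp.smul_single, smul_eq_mul, mul_one]
    rw [e1, h0, map_zero, add_zero]
    refine Submodule.sum_mem _ fun p hp => Submodule.smul_mem _ _ ?_
    have hd : deg p.2 = r := (Finsupp.mem_supported ℤ c).1 hc hp
    obtain ⟨n, hn⟩ := hπ (σ (π p.1)) p.1 (hσ (π p.1))
    have := key (σ (π p.1)) p.2 n hd
    rwa [← hn] at this
  obtain ⟨e, he, h2⟩ := h1
  exact ⟨e, he, h2⟩

/-- A permutation without finite orbits has no non-zero invariant chains. -/
theorem eq_zero_of_push_eq {β : Equiv.Perm X} (hf : ∀ x (n : ℤ), (β ^ n) x = x → n = 0)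
    {c : Ch X ι} (h : push β c = c) : c = 0 := by
  classical
  by_contra hne
  obtain ⟨p, hp⟩ := Finsupp.support_nonempty_iff.2 hne
  have hstep : ∀ q : X × ι, q ∈ c.support → (β q.1, q.2) ∈ c.support := by
    intro q hq
    rw [Finsupp.mem_support_iff] at hq ⊢
    have hinj : Function.Injective (Prod.map β (id : ι → ι)) := by
      intro a b hab
      have h1 := congrArg Prod.fst hab
      have h2 := congrArg Prod.snd hab
      exact Prod.ext (β.injective h1) h2
    have h1 : push β c (β q.1, q.2) = c q := by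
      unfold push
      rw [Finsupp.lmapDomain_apply]
      exact Finsupp.mapDomain_apply hinj c q
    rw [h] at h1
    rwa [h1]
  have hall : ∀ n : ℕ, ((β ^ n) p.1, p.2) ∈ c.support := by
    intro n
    induction n with
    | zero => simpa using hp
    | succ n ih =>
      have := hstep _ ih
      rw [pow_succ', Equiv.Perm.mul_apply]
      exact this
  have hinj : Function.Injective (fun n : ℕ => (⟨_, hall n⟩ : c.support)) := by
    intro a b hab
    have h1 : (β ^ a) p.1 = (β ^ b) p.1 := congrArg (fun z : c.support => z.1.1) hab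
    have h2 : (β ^ ((a : ℤ) - b)) p.1 = p.1 := by
      rw [sub_eq_add_neg, add_comm, zpow_add, zpow_neg, zpow_natCast, zpow_natCast,
        Equiv.Perm.mul_apply, h1, ← Equiv.Perm.mul_apply, inv_mul_cancel]
      rfl
    have := hf _ _ h2
    omega
  exact not_injective_infinite_finite _ hinj

end Push

section Step

variable {ι X Y : Type} (deg : ι → ℕ)

/-- The inductive statement: cycles of rank `> k` are boundaries, and there is a cycle of rank `k`
which is not a boundary and is invariant modulo boundaries under the maps in `G`. -/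
structure HH (X : Type) (d : Ch X ι →ₗ[ℤ] Ch X ι) (k : ℕ) (G : Set (X → X)) : Prop where
  acyc : ∀ r, k < r → ∀ c ∈ Rk deg X r, d c = 0 → ∃ b ∈ Rk deg X (r + 1), d b = c
  cyc : ∃ z ∈ Rk deg X k, d z = 0 ∧ (∀ v ∈ Rk deg X (k + 1), d v ≠ z) ∧
    ∀ γ ∈ G, ∃ w ∈ Rk deg X (k + 1), d w = push γ z - z

theorem step {dX : Ch X ι →ₗ[ℤ] Ch X ι} {dY : Ch Y ι →ₗ[ℤ] Ch Y ι} (ddX : ∀ c, dX (dX c) = 0)
    (low : ∀ r, ∀ c ∈ Rk deg X (r + 1), dX c ∈ Rk deg X r) {π : X → Y}
    (nat : ∀ c, dY (push π c) = push π (dX c)) {β : Equiv.Perm X}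
    (hβ : ∀ c, dX (push β c) = push β (dX c)) (hπβ : ∀ x, π (β x) = π x)
    (hπ : ∀ x x', π x = π x' → ∃ n : ℤ, x' = (β ^ n) x) (hs : Function.Surjective π)
    (hf : ∀ x (n : ℤ), (β ^ n) x = x → n = 0) {GX : Set (X → X)} {GY : Set (Y → Y)}
    (hG : ∀ γ' ∈ GY, ∃ γ ∈ GX, (∀ x, π (γ x) = γ' (π x)) ∧ (∀ x, γ (β x) = β (γ x)) ∧
      ∀ c, dX (push γ c) = push γ (dX c)) (hβG : ⇑β ∈ GX) {k : ℕ} (h : HH deg X dX k GX) :
    HH deg Y dY (k + 1) GY := by
  obtain ⟨σ, hσ⟩ := hs.hasRightInverse
  have hπσ : ∀ c : Ch Y ι, push π (push σ c) = c := by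
    intro c
    rw [push_comp, push_congr (f := π ∘ σ) (g := id) hσ, push_id]
  have hπβ2 : ∀ c : Ch X ι, push π (push β c) = push π c := by
    intro c
    rw [push_comp]
    exact push_congr hπβ c
  have hinj : ∀ a b : Ch X ι, push β a - a = push β b - b → a = b := by
    intro a b hab
    have h1 : push β (a - b) = a - b := by
      rw [map_sub]
      have h3 : push β a - push β b = (push β a - a) - (push β b - b) + (a - b) := by abel
      rw [h3, hab, sub_self, zero_add]
    exact sub_eq_zero.1 (eq_zero_of_push_eq hf h1)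
  refine ⟨?_, ?_⟩
  · intro r hr c' hc' h0
    obtain ⟨r', rfl⟩ : ∃ r', r = r' + 1 := ⟨r - 1, by omega⟩
    have hc : push σ c' ∈ Rk deg X (r' + 1) := push_mem deg σ hc'
    have h1 : push π (dX (push σ c')) = 0 := by rw [← nat, hπσ, h0]
    obtain ⟨e, he, h2⟩ := exists_sub deg hπ hs (low r' _ hc) h1
    have h3 : dX e = 0 := by
      apply hinj
      rw [← hβ, ← map_sub, h2, ddX, map_zero, sub_zero]
    obtain ⟨e', he', h4⟩ := h.acyc r' (by omega) e he h3
    have h5 : dX (push σ c' - (push β e' - e')) = 0 := by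
      rw [map_sub, map_sub, hβ, h4, h2, sub_self]
    obtain ⟨g, hg, h6⟩ := h.acyc (r' + 1) (by omega) _
      (sub_mem hc (sub_mem (push_mem deg _ he') he')) h5
    refine ⟨push π g, push_mem deg _ hg, ?_⟩
    rw [nat, h6, map_sub, map_sub, hπβ2, sub_self, sub_zero, hπσ]
  · obtain ⟨z, hz, h1, h2, h3⟩ := h.cyc
    obtain ⟨w, hw, h4⟩ := h3 _ hβG
    refine ⟨push π w, push_mem deg _ hw, ?_, ?_, ?_⟩
    · rw [nat, h4, map_sub, hπβ2, sub_self]
    · intro v' hv' h5
      have h6 : push π (w - dX (push σ v')) = 0 := by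
        rw [map_sub, ← nat, hπσ, h5, sub_self]
      obtain ⟨e, he, h7⟩ := exists_sub deg hπ hs
        (sub_mem hw (low _ _ (push_mem deg σ hv'))) h6
      have h8 : dX e = z := by
        apply hinj
        rw [← hβ, ← map_sub, h7, map_sub, ddX, sub_zero, h4]
      exact h2 e he h8
    · intro γ' hγ'
      obtain ⟨γ, hγ, g1, g2, g3⟩ := hG γ' hγ'
      obtain ⟨u, hu, h5⟩ := h3 γ hγ
      have h6 : dX ((push γ w - w) - (push β u - u)) = 0 := by
        rw [map_sub, map_sub, map_sub, g3, hβ, h4, h5, map_sub, map_sub, push_comp, push_comp,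
          push_congr (f := γ ∘ β) (g := β ∘ γ) g2]
        abel
      obtain ⟨g, hg, h7⟩ := h.acyc (k + 1) (by omega) _
        (sub_mem (sub_mem (push_mem deg _ hw) hw) (sub_mem (push_mem deg _ hu) hu)) h6
      refine ⟨push π g, push_mem deg _ hg, ?_⟩
      rw [nat, h7, map_sub, map_sub, map_sub, hπβ2, sub_self, sub_zero, push_comp, push_comp,
        push_congr (f := π ∘ γ) (g := γ' ∘ π) g1]

end Step

end FK
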