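import Pool.Agent.W_d741r_h37.DD
import Pool.Agent.W_d741k_h18.NoZ

/-!
# MP_d741cf_al, F4 half: the explicit complex as a natural complex of chains

`FK.sys` is the complex of `Pool.Agent.W_d741r_h37`, with the facts `sys_coef`, `sys_aug`,
`sys_low0`, `sys_ne0` needed for `no_Z4`.
-/

namespace FK

open AG AM

theorem push_eq_mapC {X Y : Type} (f : X → Y) (c : Ch X (Finset (Fin 4))) :
    push f c = AG.mapC f c := rfl

section

variable {X : Type} [MulAction A4 X]

theorem lsum_mem (x : X) {R : Finset (Fin 4)} {r : ℕ} (h : R.card = r)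
    (l : List (List (Fin 4))) : (AG.lsum (toGrp C4) x R l) ∈ Rk cdeg X r := by
  induction l with
  | nil => exact zero_mem _
  | cons w l ih =>
    rw [AG.lsum_cons]
    exact add_mem (single_mem cdeg (p := (toGrp C4 (mk C4 w) • x, R)) h _) ih

theorem dB_mem (p : X × Finset (Fin 4)) {r : ℕ} (h : p.2.card = r + 1) :
    (AG.dB (toGrp C4) p) ∈ Rk cdeg X r := by
  unfold AG.dB
  refine Submodule.sum_mem _ fun s hs => ?_
  refine Submodule.smul_mem _ _ (lsum_mem p.1 ?_ _)
  rw [Finset.card_erase_of_mem hs, h]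
  rfl

theorem dC_mem {r : ℕ} {c : Ch X (Finset (Fin 4))} (hc : c ∈ Rk cdeg X (r + 1)) :
    AG.dC (toGrp C4) c ∈ Rk cdeg X r := by
  unfold AG.dC
  rw [Finsupp.linearCombination_apply]
  refine Submodule.sum_mem _ fun p hp => Submodule.smul_mem _ _ (dB_mem p ?_)
  exact (Finsupp.mem_supported ℤ c).1 hc hp

theorem dC_zero {c : Ch X (Finset (Fin 4))} (hc : c ∈ Rk cdeg X 0) :
    AG.dC (toGrp C4) c = 0 := by
  unfold AG.dC
  rw [Finsupp.linearCombination_apply]
  refine Finset.sum_eq_zero fun p hp => ?_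
  have h : p.2.card = 0 := (Finsupp.mem_supported ℤ c).1 hc hp
  rw [Finset.card_eq_zero] at h
  show c p • AG.dB (toGrp C4) p = 0
  unfold AG.dB
  rw [h, Finset.sum_empty, smul_zero]

/-- The augmentation. -/
noncomputable def aug (X : Type) : Ch X (Finset (Fin 4)) →ₗ[ℤ] ℤ :=
  Finsupp.linearCombination ℤ (fun _ => (1 : ℤ))

omit [MulAction A4 X] in
theorem aug_apply (c : Ch X (Finset (Fin 4))) : aug X c = c.sum fun _ a => a := by
  unfold aug
  rw [Finsupp.linearCombination_apply]
  refine Finset.sum_congr rfl fun p _ => ?_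
  show c p • (1 : ℤ) = c p
  rw [smul_eq_mul, mul_one]

omit [MulAction A4 X] in
theorem aug_single (p : X × Finset (Fin 4)) (a : ℤ) :
    aug X (Finsupp.single p a) = a := by
  unfold aug
  rw [Finsupp.linearCombination_single, smul_eq_mul, mul_one]

theorem aug_lsum (x : X) (R : Finset (Fin 4)) (l : List (List (Fin 4))) :
    aug X (AG.lsum (toGrp C4) x R l) = (l.map fun w => (-1 : ℤ) ^ w.length).sum := by
  induction l with
  | nil => rw [AG.lsum_nil, map_zero]; rfl
  | cons w l ih => rw [AG.lsum_cons, map_add, ih, aug_single, List.map_cons, List.sum_cons]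

theorem L_aug : ∀ T : Finset (Fin 4), T.card = 1 → ∀ s ∈ T,
    ((L T s).map fun w => (-1 : ℤ) ^ w.length).sum = 0 := by decide +kernel

theorem aug_dC {c : Ch X (Finset (Fin 4))} (hc : c ∈ Rk cdeg X 1) :
    aug X (AG.dC (toGrp C4) c) = 0 := by
  unfold AG.dC
  rw [Finsupp.linearCombination_apply, Finsupp.sum, map_sum]
  refine Finset.sum_eq_zero fun p hp => ?_
  have h : p.2.card = 1 := (Finsupp.mem_supported ℤ c).1 hc hp
  rw [map_zsmul]
  unfold AG.dB
  rw [map_sum, Finset.sum_eq_zero, smul_zero]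
  intro s hs
  rw [map_zsmul, aug_lsum, L_aug _ h s hs, smul_zero]

theorem lsum_apply (x : X) (R : Finset (Fin 4)) (l : List (List (Fin 4))) (y : X) :
    AG.lsum (toGrp C4) x R l (y, R) =
      (l.map fun w => (-1 : ℤ) ^ w.length *
        (Finsupp.single (x, (Finset.univ : Finset (Fin 4))) (1 : ℤ))
          ((toGrp C4 (mk C4 w))⁻¹ • y, Finset.univ)).sum := by
  classical
  induction l with
  | nil => rw [AG.lsum_nil]; rfl
  | cons w l ih =>
    rw [AG.lsum_cons, Finsupp.add_apply, ih, List.map_cons, List.sum_cons]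
    congr 1
    rw [Finsupp.single_apply, Finsupp.single_apply]
    by_cases h : toGrp C4 (mk C4 w) • x = y
    · have h2 : x = (toGrp C4 (mk C4 w))⁻¹ • y := by rw [← h, inv_smul_smul]
      rw [if_pos (by rw [h]), if_pos (by rw [← h2]), mul_one]
    · have h2 : ¬ x = (toGrp C4 (mk C4 w))⁻¹ • y := by
        intro h3
        apply h
        rw [h3, smul_inv_smul]
      rw [if_neg (fun h3 => h (Prod.ext_iff.1 h3).1), if_neg (fun h3 => h2 (Prod.ext_iff.1 h3).1),
        mul_zero]

theorem lsum_apply_ne (x : X) {R R' : Finset (Fin 4)} (hR : R ≠ R') (l : List (List (Fin 4)))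
    (y : X) : AG.lsum (toGrp C4) x R l (y, R') = 0 := by
  classical
  induction l with
  | nil => rw [AG.lsum_nil]; rfl
  | cons w l ih =>
    rw [AG.lsum_cons, Finsupp.add_apply, ih, add_zero, Finsupp.single_apply,
      if_neg (fun h => hR (Prod.ext_iff.1 h).2)]

theorem erase_ne : ∀ T : Finset (Fin 4), ∀ s ∈ T, (T ≠ Finset.univ ∨ s ≠ 0) →
    T.erase s ≠ Finset.univ.erase 0 := by decide

theorem sg_univ : AG.sg 0 Finset.univ = 1 := by decide

theorem list_sum_zero (l : List (List (Fin 4))) (g : List (Fin 4) → ℤ) (h : ∀ w, g w = 0) :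
    (l.map g).sum = 0 := by
  induction l with
  | nil => rfl
  | cons w l ih => rw [List.map_cons, List.sum_cons, h, ih, add_zero]

theorem dC_coef (z : Ch X (Finset (Fin 4))) (y : X) :
    AG.dC (toGrp C4) z (y, Finset.univ.erase 0) =
      (L15_0.map fun w => (-1 : ℤ) ^ w.length *
        z ((toGrp C4 (mk C4 w))⁻¹ • y, Finset.univ)).sum := by
  classical
  induction z using Finsupp.induction_linear with
  | zero =>
    rw [map_zero, list_sum_zero]
    · rfl
    · intro w
      rw [Finsupp.zero_apply, mul_zero]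
  | add a b ha hb =>
    rw [map_add, Finsupp.add_apply, ha, hb, ← List.sum_map_add]
    congr 1
    refine List.map_congr_left fun w _ => ?_
    rw [Finsupp.add_apply, mul_add]
  | single p a =>
    rw [AG.dC_single, Finsupp.smul_apply]
    obtain ⟨x, T⟩ := p
    by_cases hT : T = Finset.univ
    · subst hT
      unfold AG.dB
      rw [Finsupp.finsetSum_apply, Finset.sum_eq_single (0 : Fin 4)]
      · rw [Finsupp.smul_apply, sg_univ, one_smul, lsum_apply, L_univ_zero, smul_eq_mul,
          ← List.sum_map_mul_left]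
        congr 1
        refine List.map_congr_left fun w _ => ?_
        rw [Finsupp.single_apply, Finsupp.single_apply]
        by_cases h : (x, (Finset.univ : Finset (Fin 4))) =
          ((toGrp C4 (mk C4 w))⁻¹ • y, Finset.univ)
        · rw [if_pos h, if_pos h]
          ring
        · rw [if_neg h, if_neg h]
          ring
      · intro s hs hs0
        rw [Finsupp.smul_apply, lsum_apply_ne _ (erase_ne _ s hs (Or.inr hs0)), smul_zero]
      · intro h
        exact absurd (Finset.mem_univ _) h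
    · unfold AG.dB
      rw [Finsupp.finsetSum_apply, Finset.sum_eq_zero, smul_zero, list_sum_zero]
      · intro w
        rw [Finsupp.single_apply, if_neg (fun h => hT (Prod.ext_iff.1 h).2), mul_zero]
      · intro s hs
        rw [Finsupp.smul_apply, lsum_apply_ne _ (erase_ne _ s hs (Or.inl hT)), smul_zero]

end

/-- **The explicit complex** as a natural complex of chains on `A4`-sets. -/
noncomputable def sys : Sys A4 cdeg where
  d X _ := AG.dC (toGrp C4) (X := X)
  nat X Y _ _ f hf c := by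
    rw [push_eq_mapC, push_eq_mapC]
    exact AG.dC_mapC (toGrp C4) f hf c
  dd X _ c := AG.dC_dC (toGrp C4) c
  low X _ r c hc := dC_mem hc

theorem sys_d (X : Type) [MulAction A4 X] : sys.d X = AG.dC (toGrp C4) (X := X) := rfl

/-- The boundary coefficient. -/
theorem sys_coef : Coef sys := fun _ _ z _ y => dC_coef z y

theorem sys_aug (b : Ch A4 (Finset (Fin 4))) (hb : b ∈ Rk cdeg A4 1) :
    ((sys.d A4 b).sum fun _ a => a) = 0 := by
  rw [sys_d, ← aug_apply]
  exact aug_dC hb

theorem sys_low0 (c : Ch A4 (Finset (Fin 4))) (hc : c ∈ Rk cdeg A4 0) : sys.d A4 c = 0 :=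
  dC_zero hc

theorem sys_ne0 : ∃ i : Finset (Fin 4), cdeg i = 0 := ⟨∅, rfl⟩

/-- The resolution property from exactness in positive rank and at rank zero. -/
theorem sys_res
    (ex : ∀ r, ∀ c ∈ Rk cdeg A4 (r + 1), AG.dC (toGrp C4) c = 0 →
      ∃ b ∈ Rk cdeg A4 (r + 2), AG.dC (toGrp C4) b = c)
    (ex0 : ∀ c ∈ Rk cdeg A4 0, (c.sum fun _ a => a) = 0 →
      ∃ b ∈ Rk cdeg A4 1, AG.dC (toGrp C4) b = c) : sys.Res :=
  ⟨ex, ex0, sys_aug, sys_low0, sys_ne0⟩

/-- **No `ℤ ^ 4` fixes the base vertex**, given exactness of the explicit complex. -/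
theorem no_Z4_of_ex
    (ex : ∀ r, ∀ c ∈ Rk cdeg A4 (r + 1), AG.dC (toGrp C4) c = 0 →
      ∃ b ∈ Rk cdeg A4 (r + 2), AG.dC (toGrp C4) b = c)
    (ex0 : ∀ c ∈ Rk cdeg A4 0, (c.sum fun _ a => a) = 0 →
      ∃ b ∈ Rk cdeg A4 1, AG.dC (toGrp C4) b = c)
    {ρ : Multiplicative (Fin 4 → ℤ) →* A4} (hρ : Function.Injective ρ)
    (hk : ∀ n, Ψ (ρ n) (false, []) = (false, [])) : False :=
  no_Z4 sys (sys_res ex ex0) sys_coef hρ hk

end FK
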